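import Pool.Agent.Lib.MP_c17912_pr_TC.ALL

/-!
# MP_c17912_pr: the left hulls of SLE driven by complex Brownian motion are transient for every
# covariance matrix
-/

set_option autoImplicit false

open MeasureTheory ProbabilityTheory
open scoped NNReal

namespace Pool.Agent.Results.MP_c17912_pr.Transience

open Pool.Agent.SLE

universe u

/-- For every real symmetric positive semidefinite matrix `Σ = ((a, c), (c, b))` the left hulls of
the Loewner evolution driven by the planar Brownian motion with covariance matrix `Σ` are almost
surely transient. -/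
theorem result (Ω : Type u) [MeasurableSpace Ω] (μ : Measure Ω) [IsProbabilityMeasure μ]
    (a b c : ℝ) (ha : 0 ≤ a) (hb : 0 ≤ b) (hc : c ^ 2 ≤ a * b) (W : ℝ≥0 → Ω → ℂ)
    (hW : PlanarBM a b c W μ) :
    ∀ᵐ ω ∂μ, Transient (fun t : ℝ => W t.toNNReal ω) :=
  trans_all ha hb hc hW

end Pool.Agent.Results.MP_c17912_pr.Transience
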